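import Mathlib
import Pool.Agent.V7H85.UP.Main

/-!
# Norm-bounded WOT approximation by ultrapower operators on `L^p`: a negative answer for `p ≠ 2`

For every `1 < p < ∞` with `p ≠ 2`, both real and complex scalars, and every selective ultrafilter
`U` there is an operator `S` in the weak operator closure of `{T^U : T ∈ B(L^p)}` which lies in the
weak operator closure of no set `{T^U : ‖T‖ ≤ r}`.

The operator is of rank one. Let `(ξ_n)` be independent and uniformly distributed in `[-1, 1]`, and
for `0 < δ ≤ 1` let `h_δ` be the sign function cut off at `δ`. For `p > 2` the operator is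
`S x = (lim_U ∫ g(ξ_n) x_n) (h_1(ξ_n))_U`, where `g = ∑ γ_m h_(2^-m)` is in `L^q` but not in `L^2`;
for `p < 2` it is the dual one. Truncations of `g` give operators which are approximated by
`T = ∑_(k ∈ I) g(ξ_k) ⊗ h_1(ξ_k)` with suitable `I ∈ U`, by selectivity. On the other hand, if
`‖T‖ ≤ r` then the average over `n` in a finite set of the diagonal coefficients
`⟨h_1(ξ_n), T h_δ(ξ_n)⟩` is at most `C r √δ` (random signs and exponential moments), which
contradicts `g ∉ L^2`.
-/

set_option autoImplicit false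

open MeasureTheory
open scoped ENNReal unitInterval

namespace Pool.Agent.Results.MP_7518b9_an.UnboundedApproximantsH85

open Pool.Agent.V7H85.UP

/-- For all `1 < p < ∞`, `p ≠ 2`, real or complex scalars and all selective ultrafilters `U` there is
`S` in the weak operator closure `𝒜` of the operators `T^U`, `T ∈ B(L^p[0,1])`, which is not in the
weak operator closure `𝒜_r` of the operators `T^U` with `‖T‖ ≤ r`, for any `r`. -/
theorem result (𝕜 : Type*) [RCLike 𝕜] (p : ℝ≥0∞) [Fact (1 ≤ p)] (hp1 : 1 < p) (hp2 : p < ∞)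
    (hp : p ≠ 2) (U : Ultrafilter ℕ) (hU : NonPrincipal U) (hs : IsSelective U) :
    NotBoundedlyApproximable 𝕜 (Lp 𝕜 p (volume : Measure unitInterval)) U := by
  obtain ⟨ξ, hm, hlaw, hind⟩ := exists_iid_unit
  obtain ⟨P, rfl⟩ : ∃ P : ℝ, p = ENNReal.ofReal P := ⟨p.toReal, (ENNReal.ofReal_toReal hp2.ne).symm⟩
  have hP1 : 1 < P := by
    by_contra h
    rw [not_lt] at h
    have := ENNReal.ofReal_le_ofReal h
    rw [ENNReal.ofReal_one] at this
    exact absurd hp1 (not_lt.2 this)
  have hP2 : P ≠ 2 := by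
    rintro rfl
    exact hp (by simp)
  have hPQ : Real.HolderConjugate P (Real.conjExponent P) := Real.HolderConjugate.conjExponent hP1
  set Q := Real.conjExponent P with hQ
  haveI : ENNReal.HolderConjugate (ENNReal.ofReal Q) (ENNReal.ofReal P) :=
    hPQ.symm.ennrealOfReal
  haveI : Fact (1 ≤ ENNReal.ofReal Q) := ⟨by
    rw [← ENNReal.ofReal_one]; exact ENNReal.ofReal_le_ofReal hPQ.symm.lt.le⟩
  have hPr : (ENNReal.ofReal P).toReal = P := ENNReal.toReal_ofReal (by linarith)
  have hQr : (ENNReal.ofReal Q).toReal = Q := ENNReal.toReal_ofReal (by linarith [hPQ.symm.lt])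
  refine cases_main (𝕜 := 𝕜) (P := ENNReal.ofReal P) (Q := ENNReal.ofReal Q) hm hlaw hind hU hs
    ENNReal.ofReal_ne_top ENNReal.ofReal_ne_top ?_
  rw [hPr, hQr]
  have h1 : P⁻¹ + Q⁻¹ = 1 := hPQ.inv_add_inv_eq_one
  rcases lt_or_gt_of_ne hP2 with h2 | h2
  · left
    rw [one_div]
    exact (inv_lt_inv₀ two_pos (by linarith)).2 h2
  · right
    have h3 : P⁻¹ < 2⁻¹ := (inv_lt_inv₀ (by linarith) two_pos).2 h2
    norm_num at h3 ⊢
    linarith

end Pool.Agent.Results.MP_7518b9_an.UnboundedApproximantsH85
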